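import Pool.Agent.H2.AR.Defs

/-!
# Arrays of any order: rank, Kronecker powers
-/

open Module

namespace Pool.Agent.H2.AR

section HasRank

variable {K : Type*} [CommRing K] {P : Type} [Fintype P] {I : P → Type}

theorem HasRank.of_fintype {T : (∀ i, I i) → K} {r : ℕ} {ι : Type*} [Fintype ι]
    (a : ι → ∀ i, I i → K) (hr : Fintype.card ι ≤ r)
    (h : ∀ x, T x = ∑ s, ∏ i, a s i (x i)) : HasRank T r := by
  let e := Fintype.equivFin ι
  refine ⟨Fin (Fintype.card ι), inferInstance, fun s => a (e.symm s), by simpa using hr, ?_⟩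
  intro x
  rw [h, ← Equiv.sum_comp e.symm]

theorem HasRank.mono {T : (∀ i, I i) → K} {r s : ℕ} (h : HasRank T r) (hrs : r ≤ s) :
    HasRank T s := by
  obtain ⟨ι, _, a, hr, h⟩ := h
  exact ⟨ι, inferInstance, a, hr.trans hrs, h⟩

theorem HasRank.add {T T' : (∀ i, I i) → K} {r s : ℕ} (h : HasRank T r) (h' : HasRank T' s) :
    HasRank (T + T') (r + s) := by
  obtain ⟨ι, _, a, hr, h⟩ := h
  obtain ⟨ι', _, a', hr', h'⟩ := h'
  refine ⟨ι ⊕ ι', inferInstance, Sum.elim a a', ?_, ?_⟩
  · rw [Fintype.card_sum]; omega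
  · intro x
    simp [Fintype.sum_sum_type, h, h']

theorem HasRank.zero : HasRank (0 : (∀ i, I i) → K) 0 :=
  ⟨Empty, inferInstance, fun s => s.elim, by simp, fun x => by simp⟩

theorem HasRank.sum {α : Type*} (s : Finset α) (T : α → (∀ i, I i) → K) {r : ℕ}
    (h : ∀ i ∈ s, HasRank (T i) r) : HasRank (∑ i ∈ s, T i) (s.card * r) := by
  classical
  induction s using Finset.induction_on with
  | empty => simpa using HasRank.zero
  | insert i s hi ih =>
    rw [Finset.sum_insert hi, Finset.card_insert_of_notMem hi]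
    have h1 := (h i (Finset.mem_insert_self i s)).add
      (ih fun j hj => h j (Finset.mem_insert_of_mem hj))
    exact h1.mono (le_of_eq (by ring))

/-- scalar multiples; there has to be at least one factor -/
theorem HasRank.smul [Nonempty P] {T : (∀ i, I i) → K} {r : ℕ} (h : HasRank T r) (t : K) :
    HasRank (t • T) r := by
  classical
  obtain ⟨ι, _, a, hr, h⟩ := h
  let p : P := Classical.arbitrary P
  refine ⟨ι, inferInstance, fun s i x => if i = p then t * a s i x else a s i x, hr, ?_⟩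
  intro x
  simp only [Pi.smul_apply, smul_eq_mul, h, Finset.mul_sum]
  refine Finset.sum_congr rfl fun s _ => ?_
  rw [← Finset.mul_prod_erase _ _ (Finset.mem_univ p),
    ← Finset.mul_prod_erase _ (fun i => if i = p then t * a s i (x i) else a s i (x i))
      (Finset.mem_univ p), if_pos rfl, mul_assoc]
  congr 2
  refine Finset.prod_congr rfl fun i hi => ?_
  rw [if_neg (Finset.ne_of_mem_erase hi)]

/-- pull back along maps of the index sets -/
theorem HasRank.comp {I' : P → Type} {T : (∀ i, I i) → K} {r : ℕ} (h : HasRank T r)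
    (f : ∀ i, I' i → I i) : HasRank (fun x : ∀ i, I' i => T fun i => f i (x i)) r := by
  obtain ⟨ι, _, a, hr, h⟩ := h
  exact ⟨ι, inferInstance, fun s i x => a s i (f i x), hr, fun x => h _⟩

omit [Fintype P] in
theorem kpow_apply (J : Type) [Fintype J] (T : (∀ i, I i) → K) (x : ∀ i, J → I i) :
    kpow J T x = ∏ j, T fun i => x i j := rfl

theorem HasRank.kpow {T : (∀ i, I i) → K} {r : ℕ} (h : HasRank T r) (J : Type) [Fintype J] :
    HasRank (kpow J T) (r ^ Fintype.card J) := by
  classical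
  obtain ⟨ι, _, a, hr, h⟩ := h
  refine ⟨J → ι, inferInstance, fun s i x => ∏ j, a (s j) i (x j), ?_, ?_⟩
  · rw [Fintype.card_fun]
    exact Nat.pow_le_pow_left hr _
  · intro x
    simp only [AR.kpow, h]
    rw [Finset.prod_univ_sum]
    simp only [Fintype.piFinset_univ]
    refine Finset.sum_congr rfl fun s _ => ?_
    rw [Finset.prod_comm]

/-- the product of two ranks -/
theorem HasRank.kpow_sum {J J' : Type} [Fintype J] [Fintype J'] {T : (∀ i, I i) → K} {r s : ℕ}
    (h : HasRank (AR.kpow J T) r) (h' : HasRank (AR.kpow J' T) s) :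
    HasRank (AR.kpow (J ⊕ J') T) (r * s) := by
  obtain ⟨ι, _, a, hr, h⟩ := h
  obtain ⟨ι', _, a', hr', h'⟩ := h'
  refine ⟨ι × ι', inferInstance,
    fun s i x => a s.1 i (fun j => x (Sum.inl j)) * a' s.2 i (fun j => x (Sum.inr j)), ?_, ?_⟩
  · rw [Fintype.card_prod]
    exact Nat.mul_le_mul hr hr'
  · intro x
    have h1 : AR.kpow (J ⊕ J') T x = AR.kpow J T (fun i j => x i (Sum.inl j)) *
        AR.kpow J' T (fun i j => x i (Sum.inr j)) := by
      simp only [AR.kpow, Fintype.prod_sum_type]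
    rw [h1, h, h', Finset.sum_mul_sum, Fintype.sum_prod_type]
    refine Finset.sum_congr rfl fun s _ => Finset.sum_congr rfl fun t _ => ?_
    rw [Finset.prod_mul_distrib]

/-- Kronecker powers only depend on the number of factors -/
theorem HasRank.reindex {J J' : Type} [Fintype J] [Fintype J'] (e : J ≃ J')
    {T : (∀ i, I i) → K} {r : ℕ} (h : HasRank (AR.kpow J T) r) : HasRank (AR.kpow J' T) r := by
  have h1 := h.comp (fun (i : P) (x : J' → I i) => fun j => x (e j))
  convert h1 using 1
  funext x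
  simp only [AR.kpow]
  rw [← Equiv.prod_comp e]

theorem HasRank.kpow_kpow {J J' : Type} [Fintype J] [Fintype J'] {T : (∀ i, I i) → K} {r : ℕ}
    (h : HasRank (AR.kpow J' (AR.kpow J T)) r) : HasRank (AR.kpow (J' × J) T) r := by
  have h1 := h.comp (fun (i : P) (x : J' × J → I i) => fun j' j => x (j', j))
  convert h1 using 1
  funext x
  simp only [AR.kpow]
  rw [Fintype.prod_prod_type]

/-- the trivial bound -/
theorem hasRank_trivial [Nonempty P] [∀ i, Fintype (I i)] [∀ i, DecidableEq (I i)]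
    [DecidableEq P] (T : (∀ i, I i) → K) : HasRank T (Fintype.card (∀ i, I i)) := by
  let p : P := Classical.arbitrary P
  refine ⟨∀ i, I i, inferInstance,
    fun s i t => if t = s i then (if i = p then T s else 1) else 0, le_rfl, ?_⟩
  intro x
  rw [Finset.sum_eq_single x]
  · simp only [if_true]
    rw [Finset.prod_ite_eq' Finset.univ p (fun _ => T x), if_pos (Finset.mem_univ p)]
  · intro y _ hy
    obtain ⟨i, hi⟩ := Function.ne_iff.mp hy
    refine Finset.prod_eq_zero (Finset.mem_univ i) ?_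
    exact if_neg (Ne.symm hi)
  · intro hh; exact absurd (Finset.mem_univ _) hh

theorem rk_le {T : (∀ i, I i) → K} {r : ℕ} (h : HasRank T r) : rk T ≤ r := Nat.sInf_le h

theorem hasRank_rk [Nonempty P] [∀ i, Fintype (I i)] (T : (∀ i, I i) → K) :
    HasRank T (rk T) := by
  classical
  exact Nat.sInf_mem (s := {r | HasRank T r}) ⟨_, hasRank_trivial T⟩

theorem hasRank_iff_rk_le [Nonempty P] [∀ i, Fintype (I i)] {T : (∀ i, I i) → K} {r : ℕ} :
    HasRank T r ↔ rk T ≤ r :=
  ⟨rk_le, fun h => (hasRank_rk T).mono h⟩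

theorem HasRank.eq_zero {T : (∀ i, I i) → K} (h : HasRank T 0) : T = 0 := by
  obtain ⟨ι, _, a, hr, h⟩ := h
  have : IsEmpty ι := Fintype.card_eq_zero_iff.mp (by omega)
  funext x
  rw [h]
  simp

theorem rk_pos [Nonempty P] [∀ i, Fintype (I i)] {T : (∀ i, I i) → K} (hT : T ≠ 0) :
    0 < rk T := by
  rw [Nat.pos_iff_ne_zero]
  intro h0
  apply hT
  have := hasRank_rk T
  rw [h0] at this
  exact this.eq_zero

omit [Fintype P] in
theorem kpow_ne_zero [NoZeroDivisors K] [Nontrivial K] {T : (∀ i, I i) → K} (hT : T ≠ 0)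
    (J : Type) [Fintype J] : kpow J T ≠ 0 := by
  obtain ⟨x, hx⟩ := Function.ne_iff.mp hT
  refine Function.ne_iff.mpr ⟨fun i _ => x i, ?_⟩
  rw [kpow_apply]
  exact Finset.prod_ne_zero_iff.mpr fun _ _ => hx

end HasRank

end Pool.Agent.H2.AR
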