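import Pool.Agent.H2.AR.LowerPow

/-!
# The asymptotic rank
-/

open Module TensorProduct Filter Topology

namespace Pool.Agent.H2.AR

open Pool.Agent.H14.RF Pool.Agent.H15.Defect Pool.Agent.H12.Defect

universe u

section asym

variable {k : Type*} [Field k] {P : Type} [Fintype P] {I : P → Type} [∀ i, Fintype (I i)]

omit [∀ i, Fintype (I i)] in
theorem asymRank_nonneg (T : (∀ i, I i) → k) : 0 ≤ asymRank T :=
  Real.iInf_nonneg fun _ => by positivity

omit [∀ i, Fintype (I i)] in
theorem asymRank_pow_succ_le (T : (∀ i, I i) → k) (N : ℕ) :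
    asymRank T ^ (N + 1) ≤ rk (kpow (Fin (N + 1)) T) := by
  have h1 : asymRank T ≤ (rk (kpow (Fin (N + 1)) T) : ℝ) ^ (1 / ((N : ℝ) + 1)) :=
    ciInf_le ⟨0, by rintro _ ⟨n, rfl⟩; positivity⟩ N
  calc asymRank T ^ (N + 1) ≤ ((rk (kpow (Fin (N + 1)) T) : ℝ) ^ (1 / ((N : ℝ) + 1))) ^ (N + 1) :=
        pow_le_pow_left₀ (asymRank_nonneg T) h1 _
    _ = _ := by
        rw [← Real.rpow_natCast, ← Real.rpow_mul (Nat.cast_nonneg _)]
        push_cast
        rw [one_div_mul_cancel (by positivity), Real.rpow_one]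

variable [Nonempty P]

theorem asymRank_pow_le {T : (∀ i, I i) → k} (hT : T ≠ 0) (N : ℕ) :
    asymRank T ^ N ≤ rk (kpow (Fin N) T) := by
  cases N with
  | zero =>
    rw [pow_zero]
    exact_mod_cast rk_pos (kpow_ne_zero hT (Fin 0))
  | succ N => exact asymRank_pow_succ_le T N

theorem asymRank_pow_le' {T : (∀ i, I i) → k} (hT : T ≠ 0) {J : Type} [Fintype J] {r : ℕ}
    (h : HasRank (kpow J T) r) : asymRank T ^ Fintype.card J ≤ r := by
  have h1 := h.reindex (Fintype.equivFin J)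
  exact (asymRank_pow_le hT _).trans (by exact_mod_cast rk_le h1)

theorem mrank_le_asymRank [DecidableEq P] (T : (∀ i, I i) → k) : (mrank T : ℝ) ≤ asymRank T := by
  refine le_ciInf fun N => ?_
  have h1 : mrank T ^ (N + 1) ≤ rk (kpow (Fin (N + 1)) T) := by
    have := mrank_le_of_hasRank (hasRank_rk (kpow (Fin (N + 1)) T))
    rwa [mrank_kpow, Fintype.card_fin] at this
  calc (mrank T : ℝ) = ((mrank T : ℝ) ^ (N + 1)) ^ (1 / ((N : ℝ) + 1)) := by
        rw [← Real.rpow_natCast, ← Real.rpow_mul (Nat.cast_nonneg _)]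
        push_cast
        rw [mul_one_div_cancel (by positivity), Real.rpow_one]
    _ ≤ _ := by
        apply Real.rpow_le_rpow (by positivity) _ (by positivity)
        exact_mod_cast h1

/-- The ranks of the Kronecker powers grow at the rate given by the asymptotic rank. -/
theorem exists_rank_bound {T : (∀ i, I i) → k} {c : ℝ} (hc1 : 1 ≤ c)
    (hc : asymRank T < c) : ∃ C : ℝ, 0 < C ∧ ∀ N : ℕ, (rk (kpow (Fin N) T) : ℝ) ≤ C * c ^ N := by
  obtain ⟨n, hn⟩ := exists_lt_of_ciInf_lt hc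
  set R := rk (kpow (Fin (n + 1)) T) with hR
  have hRc : (R : ℝ) ≤ c ^ (n + 1) := by
    have h1 : ((R : ℝ) ^ (1 / ((n : ℝ) + 1))) ^ (n + 1) ≤ c ^ (n + 1) :=
      pow_le_pow_left₀ (by positivity) hn.le _
    rw [← Real.rpow_natCast, ← Real.rpow_mul (Nat.cast_nonneg _)] at h1
    push_cast at h1
    rw [one_div_mul_cancel (by positivity), Real.rpow_one] at h1
    exact h1
  let r := rk T + 1
  have hr : HasRank T r := (hasRank_rk T).mono (Nat.le_succ _)
  have hr1 : (1 : ℝ) ≤ r := by exact_mod_cast Nat.le_add_left 1 (rk T)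
  refine ⟨(r : ℝ) ^ (n + 1), by positivity, fun N => ?_⟩
  set q := N / (n + 1) with hq
  set s := N % (n + 1) with hs
  have hN : q * (n + 1) + s = N := Nat.div_add_mod' N (n + 1)
  have hsn : s < n + 1 := Nat.mod_lt _ (Nat.succ_pos n)
  have h1 : HasRank (kpow (Fin q × Fin (n + 1)) T) (R ^ q) := by
    have := ((hasRank_rk (kpow (Fin (n + 1)) T)).kpow (Fin q)).kpow_kpow
    rwa [Fintype.card_fin] at this
  have h2 : HasRank (kpow (Fin s) T) (r ^ s) := by
    have := hr.kpow (Fin s)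
    rwa [Fintype.card_fin] at this
  have h3 := h1.kpow_sum h2
  have h4 : HasRank (kpow (Fin N) T) (R ^ q * r ^ s) :=
    h3.reindex (Fintype.equivFinOfCardEq (by
      rw [Fintype.card_sum, Fintype.card_prod, Fintype.card_fin, Fintype.card_fin,
        Fintype.card_fin, hN]))
  calc (rk (kpow (Fin N) T) : ℝ) ≤ ((R ^ q * r ^ s : ℕ) : ℝ) := by exact_mod_cast rk_le h4
    _ = (R : ℝ) ^ q * (r : ℝ) ^ s := by push_cast; ring
    _ ≤ (c ^ (n + 1)) ^ q * (r : ℝ) ^ (n + 1) := by
        apply mul_le_mul (pow_le_pow_left₀ (Nat.cast_nonneg _) hRc _)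
          (pow_le_pow_right₀ hr1 hsn.le) (by positivity) (by positivity)
    _ ≤ c ^ N * (r : ℝ) ^ (n + 1) := by
        rw [← pow_mul]
        apply mul_le_mul_of_nonneg_right _ (by positivity)
        apply pow_le_pow_right₀ hc1
        have : (n + 1) * q = q * (n + 1) := mul_comm _ _
        omega
    _ = _ := by ring

end asym

section law

variable {k : Type u} [Field k] {m : ℕ} {I : Fin m → Type} [∀ i, Fintype (I i)]

/-- **Lower bound** in terms of the asymptotic rank. -/
theorem asymRank_pow_le_of_dle [Infinite k] [Nonempty (Fin m)] {T : (∀ i, I i) → k} (hT : T ≠ 0)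
    {n D : ℕ} (h : Dle k (⨂[k] _ : Fin n, FormAlg (mform T)) D) : asymRank T ^ n ≤ D := by
  apply le_of_pow_le (Nat.cast_nonneg D) (K := Fintype.card (∀ i, Fin n → I i))
  intro N
  have h1 := (hasRank_of_dle h N).kpow_kpow
  have h2 := asymRank_pow_le' hT h1
  rw [Fintype.card_prod, Fintype.card_fin, Fintype.card_fin] at h2
  push_cast at h2
  rwa [← pow_mul, mul_comm n N]

end law

end Pool.Agent.H2.AR
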