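import Mathlib

/-!
# Arrays of any order: rank, Kronecker powers, flattenings, multilinear forms

An array of order `m` over `K` with index sets `I i` is a function `T : (∀ i : P, I i) → K`, where
`P` is a set with `m` elements (`P = Fin m` in the theorem).
-/

namespace Pool.Agent.H2.AR

section rank

variable {K : Type*} [CommRing K] {P : Type} [Fintype P] {I : P → Type}

/-- The array `T` is a sum of at most `r` products of functions of one index each. -/
def HasRank (T : (∀ i, I i) → K) (r : ℕ) : Prop :=
  ∃ (ι : Type) (_ : Fintype ι) (a : ι → ∀ i, I i → K),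
    Fintype.card ι ≤ r ∧ ∀ x, T x = ∑ s, ∏ i, a s i (x i)

/-- The rank of an array. -/
noncomputable def rk (T : (∀ i, I i) → K) : ℕ := sInf {r | HasRank T r}

/-- The Kronecker power with exponent set `J`. -/
def kpow (J : Type) [Fintype J] (T : (∀ i, I i) → K) : (∀ i, J → I i) → K :=
  fun x => ∏ j, T fun i => x i j

/-- The asymptotic rank: the infimum over `N ≥ 1` of the `N`-th roots of the ranks of the
`N`-th Kronecker powers. -/
noncomputable def asymRank (T : (∀ i, I i) → K) : ℝ :=
  ⨅ N : ℕ, (rk (kpow (Fin (N + 1)) T) : ℝ) ^ (1 / ((N : ℝ) + 1))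

end rank

section flat

variable {k : Type*} [Field k] {P : Type} [DecidableEq P] {I : P → Type}

/-- The multi-index which is `x` on `S` and `y` outside of `S`. -/
def mix (S : Finset P) (x y : ∀ i, I i) : ∀ i, I i := fun i => if i ∈ S then x i else y i

/-- The flattening of the array `T` along `S`: the rows are indexed by the indices in `S` and the
columns by the indices outside of `S` (the other indices are not used). -/
def flat (S : Finset P) (T : (∀ i, I i) → k) : Matrix (∀ i, I i) (∀ i, I i) k :=
  Matrix.of fun x y => T (mix S x y)

/-- The rank of the flattening along `S`. -/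
noncomputable def frank [Fintype P] [∀ i, Fintype (I i)] (S : Finset P) (T : (∀ i, I i) → k) : ℕ :=
  (flat S T).rank

/-- The largest flattening rank. -/
noncomputable def mrank [Fintype P] [∀ i, Fintype (I i)] (T : (∀ i, I i) → k) : ℕ :=
  Finset.univ.sup fun S => frank S T

end flat

section form

/-- The exponent of the monomial `∏ i ∈ S, X (i, x i)`. -/
noncomputable def mexp {P : Type} {I : P → Type} (S : Finset P) (x : ∀ i, I i) :
    (Σ i, I i) →₀ ℕ :=
  ∑ i ∈ S, Finsupp.single ⟨i, x i⟩ 1

/-- The multilinear form of the array `T` in the variables `X (i, a)`, as a functional on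
polynomials: the functional takes the value `T x` on the monomial `∏ i, X (i, x i)` and the value
`0` on all other monomials. -/
noncomputable def mform {k : Type*} [Field k] {P : Type} [Fintype P] [DecidableEq P]
    {I : P → Type} [∀ i, Fintype (I i)] (T : (∀ i, I i) → k) :
    MvPolynomial (Σ i, I i) k →ₗ[k] k :=
  ∑ x, T x • MvPolynomial.lcoeff k (mexp Finset.univ x)

end form

end Pool.Agent.H2.AR
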