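import Pool.Agent.H2.AR.Poly

/-!
# The dimension of the apolar algebra of an array is the sum of its flattening ranks
-/

open MvPolynomial Module

namespace Pool.Agent.H2.AR

open Pool.Agent.H14.RF

variable {k : Type*} [Field k] {P : Type} [Fintype P] [DecidableEq P] {I : P → Type}
  [∀ i, Fintype (I i)]

/-- the contractions of the form by the monomials in the variables of `Sᶜ` -/
noncomputable def psi (T : (∀ i, I i) → k) (S : Finset P) :
    MvPolynomial (Σ i, I i) k →ₗ[k] ((∀ i, I i) → k) :=
  LinearMap.pi fun y => mform T ∘ₗ LinearMap.mulRight k (monomial (mexp Sᶜ y) (1 : k))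

theorem psi_apply (T : (∀ i, I i) → k) (S : Finset P) (g : MvPolynomial (Σ i, I i) k)
    (y : ∀ i, I i) : psi T S g y = mform T (g * monomial (mexp Sᶜ y) 1) := rfl

theorem psi_monomial [DecidableEq (∀ i, I i)] (T : (∀ i, I i) → k) (S : Finset P)
    (x : ∀ i, I i) :
    psi T S (monomial (mexp S x) 1) = (flat S T).transpose.mulVecLin (Pi.single x 1) := by
  funext y
  rw [psi_apply, monomial_mul, mul_one, mexp_add_compl, mform_monomial, Matrix.mulVecLin_apply,
    Matrix.mulVec_single_one]
  rfl

theorem psi_monomial_of_ne (T : (∀ i, I i) → k) (S : Finset P) {e : (Σ i, I i) →₀ ℕ}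
    (h : ∀ x, e ≠ mexp S x) : psi T S (monomial e 1) = 0 := by
  funext y
  rw [psi_apply, monomial_mul, mul_one, Pi.zero_apply]
  refine mform_monomial_of_ne T fun x hx => ?_
  exact h x (eq_mexp_of_add hx)

theorem psi_mem (T : (∀ i, I i) → k) (S : Finset P) (g : MvPolynomial (Σ i, I i) k) :
    psi T S g ∈ LinearMap.range (flat S T).transpose.mulVecLin := by
  classical
  induction g using MvPolynomial.induction_on' with
  | monomial e a =>
    have h1 : (monomial e a : MvPolynomial (Σ i, I i) k) = a • monomial e 1 := by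
      rw [smul_monomial, smul_eq_mul, mul_one]
    rw [h1, map_smul]
    refine Submodule.smul_mem _ _ ?_
    by_cases h : ∃ x, e = mexp S x
    · obtain ⟨x, rfl⟩ := h
      rw [psi_monomial]
      exact LinearMap.mem_range_self _ _
    · rw [psi_monomial_of_ne T S (fun x hx => h ⟨x, hx⟩)]
      exact Submodule.zero_mem _
  | add p q hp hq =>
    rw [map_add]
    exact Submodule.add_mem _ hp hq

/-- all contractions -/
noncomputable def Psi (T : (∀ i, I i) → k) :
    MvPolynomial (Σ i, I i) k →ₗ[k]
      (∀ S : Finset P, LinearMap.range (flat S T).transpose.mulVecLin) :=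
  LinearMap.pi fun S => LinearMap.codRestrict _ (psi T S) (psi_mem T S)

theorem Psi_surjective (T : (∀ i, I i) → k) : Function.Surjective (Psi T) := by
  classical
  intro v
  have h := fun S => (v S).2
  choose c hc using h
  refine ⟨∑ S, ∑ x, c S x • monomial (mexp S x) 1, ?_⟩
  funext S
  apply Subtype.ext
  have h1 : ((Psi T (∑ S, ∑ x, c S x • monomial (mexp S x) 1)) S : (∀ i, I i) → k) =
      psi T S (∑ S, ∑ x, c S x • monomial (mexp S x) 1) := rfl
  rw [h1, ← hc S, map_sum, Finset.sum_eq_single S]
  · rw [map_sum]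
    have h2 : c S = ∑ x, c S x • (Pi.single x 1 : (∀ i, I i) → k) := by
      conv_lhs => rw [← Finset.univ_sum_single (c S)]
      refine Finset.sum_congr rfl fun x _ => ?_
      rw [← Pi.single_smul, smul_eq_mul, mul_one]
    conv_rhs => rw [h2]
    rw [map_sum]
    refine Finset.sum_congr rfl fun x _ => ?_
    rw [map_smul, map_smul, psi_monomial]
  · intro S' _ hS'
    rw [map_sum]
    refine Finset.sum_eq_zero fun x _ => ?_
    rw [map_smul, psi_monomial_of_ne, smul_zero]
    intro y hy
    exact hS' (mexp_left_inj hy)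
  · intro h; exact absurd (Finset.mem_univ _) h

theorem ker_Psi (T : (∀ i, I i) → k) :
    LinearMap.ker (Psi T) = (annIdeal (mform T)).restrictScalars k := by
  ext g
  rw [LinearMap.mem_ker, Submodule.restrictScalars_mem, mem_annIdeal_iff_monomial]
  have h0 : Psi T g = 0 ↔ ∀ S y, mform T (g * monomial (mexp Sᶜ y) 1) = 0 := by
    constructor
    · intro h S y
      exact congrFun (congrArg Subtype.val (congrFun h S)) y
    · intro h
      funext S
      apply Subtype.ext
      funext y
      exact h S y
  rw [h0]
  constructor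
  · intro h m
    by_cases hm : ∃ S x, m = mexp S x
    · obtain ⟨S, x, rfl⟩ := hm
      have := h Sᶜ x
      rwa [compl_compl] at this
    · refine mform_mul_monomial_of_ne T (fun S x hx => hm ⟨S, x, hx⟩) g
  · intro h S y
    exact h _

theorem ker_mkForm (T : (∀ i, I i) → k) :
    LinearMap.ker (Ideal.Quotient.mkₐ k (annIdeal (mform T))).toLinearMap =
      (annIdeal (mform T)).restrictScalars k := by
  ext g
  rw [LinearMap.mem_ker, Submodule.restrictScalars_mem]
  exact Ideal.Quotient.eq_zero_iff_mem

/-- the apolar algebra is the sum of the row spaces of the flattenings -/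
noncomputable def formEquiv (T : (∀ i, I i) → k) : FormAlg (mform T) ≃ₗ[k]
    (∀ S : Finset P, LinearMap.range (flat S T).transpose.mulVecLin) :=
  (LinearMap.quotKerEquivOfSurjective (Ideal.Quotient.mkₐ k (annIdeal (mform T))).toLinearMap
    Ideal.Quotient.mk_surjective).symm ≪≫ₗ
  (Submodule.quotEquivOfEq _ _ ((ker_mkForm T).trans (ker_Psi T).symm)) ≪≫ₗ
  (LinearMap.quotKerEquivOfSurjective (Psi T) (Psi_surjective T))

instance finite_form (T : (∀ i, I i) → k) : Module.Finite k (FormAlg (mform T)) :=
  Module.Finite.equiv (formEquiv T).symm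

/-- **The dimension of the apolar algebra is the sum of the flattening ranks.** -/
theorem finrank_form (T : (∀ i, I i) → k) :
    finrank k (FormAlg (mform T)) = ∑ S, frank S T := by
  rw [(formEquiv T).finrank_eq, Module.finrank_pi_fintype]
  refine Finset.sum_congr rfl fun S _ => ?_
  rw [frank, ← Matrix.rank_transpose]
  rfl

theorem mrank_le_finrank_form (T : (∀ i, I i) → k) : mrank T ≤ finrank k (FormAlg (mform T)) := by
  obtain ⟨S, hS⟩ := exists_frank_eq T
  rw [finrank_form, ← hS]
  exact Finset.single_le_sum (f := fun S => frank S T) (fun _ _ => Nat.zero_le _)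
    (Finset.mem_univ S)

theorem finrank_form_le (T : (∀ i, I i) → k) :
    finrank k (FormAlg (mform T)) ≤ 2 ^ Fintype.card P * mrank T := by
  rw [finrank_form]
  refine (Finset.sum_le_card_nsmul _ _ (mrank T) fun S _ => frank_le_mrank S T).trans ?_
  rw [smul_eq_mul, Finset.card_univ, Fintype.card_finset]

theorem mform_ne_zero {T : (∀ i, I i) → k} (hT : T ≠ 0) : mform T ≠ 0 := by
  intro h
  apply hT
  funext x
  rw [← mform_monomial T x, h]
  rfl

end Pool.Agent.H2.AR
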