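import Pool.Agent.H2.AR.Arr

/-!
# Flattening ranks
-/

open Module

namespace Pool.Agent.H2.AR

section matrix

variable {k : Type*} [Field k] {X Y Z : Type} [Fintype X] [Fintype Y] [Fintype Z]

/-- rank factorisation -/
theorem rank_fact (M : Matrix X Y k) : ∃ (U : Matrix X (Fin M.rank) k) (V : Matrix (Fin M.rank) Y k)
    (L : Matrix (Fin M.rank) X k) (R : Matrix Y (Fin M.rank) k), M = U * V ∧ L * M * R = 1 := by
  classical
  let f : (Y → k) →ₗ[k] (X → k) := M.mulVecLin
  have hr : finrank k (LinearMap.range f) = M.rank := rfl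
  let b : Basis (Fin M.rank) k (LinearMap.range f) := Module.finBasisOfFinrankEq k _ hr
  let U : Matrix X (Fin M.rank) k := Matrix.of fun x j => (b j : X → k) x
  let V : Matrix (Fin M.rank) Y k := Matrix.of fun j y =>
    b.repr ⟨f (Pi.single y 1), LinearMap.mem_range_self f _⟩ j
  have hUV : M = U * V := by
    ext x y
    have h1 : M x y = (f (Pi.single y 1)) x := by
      simp [f]
    have h2 := congrArg (fun z : LinearMap.range f => (z : X → k) x)
      (b.sum_repr ⟨f (Pi.single y 1), LinearMap.mem_range_self f _⟩)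
    simp only [Submodule.coe_sum, Submodule.coe_smul, Finset.sum_apply, Pi.smul_apply,
      smul_eq_mul] at h2
    rw [h1, ← h2, Matrix.mul_apply]
    refine Finset.sum_congr rfl fun j _ => ?_
    simp only [U, V, Matrix.of_apply]
    ring
  have hR : ∀ j, ∃ r : Y → k, f r = (b j : X → k) := fun j => (b j).2
  choose r hr' using hR
  let R : Matrix Y (Fin M.rank) k := Matrix.of fun y j => r j y
  have hMR : M * R = U := by
    ext x j
    have h1 := congrFun (hr' j) x
    simp only [f, Matrix.mulVecLin_apply, Matrix.mulVec, dotProduct] at h1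
    rw [Matrix.mul_apply]
    exact h1
  have hli : LinearIndependent k fun j => (b j : X → k) :=
    b.linearIndependent.map' (LinearMap.range f).subtype (Submodule.ker_subtype _)
  let g : (Fin M.rank → k) →ₗ[k] (X → k) := U.mulVecLin
  have hg : LinearMap.ker g = ⊥ := by
    rw [Matrix.ker_mulVecLin_eq_bot_iff]
    intro v hv
    have h1 := Fintype.linearIndependent_iff.mp hli v (by
      funext x
      have h2 := congrFun hv x
      simp only [Matrix.mulVec, dotProduct, U, Matrix.of_apply, Pi.zero_apply] at h2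
      simp only [Finset.sum_apply, Pi.smul_apply, smul_eq_mul, Pi.zero_apply]
      rw [← h2]
      exact Finset.sum_congr rfl fun j _ => mul_comm _ _)
    funext j
    exact h1 j
  obtain ⟨h, hh⟩ := LinearMap.exists_leftInverse_of_injective g hg
  let L : Matrix (Fin M.rank) X k := LinearMap.toMatrix' h
  refine ⟨U, V, L, R, hUV, ?_⟩
  rw [Matrix.mul_assoc, hMR]
  have h3 : LinearMap.toMatrix' (h ∘ₗ g) = L * U := by
    rw [LinearMap.toMatrix'_comp]
    congr 1
    simp only [g]
    rw [← Matrix.toLin'_apply', LinearMap.toMatrix'_toLin']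
  rw [← h3, hh, LinearMap.toMatrix'_id]

/-- Kronecker power of a matrix -/
def mpow (J : Type) [Fintype J] (M : Matrix X Y k) : Matrix (J → X) (J → Y) k :=
  Matrix.of fun x y => ∏ j, M (x j) (y j)

omit [Fintype X] [Fintype Y] [Fintype Z] in
theorem mpow_mul (J : Type) [Fintype J] [DecidableEq J] [Fintype Y] (M : Matrix X Y k)
    (N : Matrix Y Z k) : mpow J (M * N) = mpow J M * mpow J N := by
  ext x z
  simp only [mpow, Matrix.of_apply, Matrix.mul_apply]
  rw [Finset.prod_univ_sum, Fintype.piFinset_univ]
  refine Finset.sum_congr rfl fun y _ => ?_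
  rw [Finset.prod_mul_distrib]

omit [Fintype X] in
theorem mpow_one (J : Type) [Fintype J] [DecidableEq J] [DecidableEq X] :
    mpow J (1 : Matrix X X k) = 1 := by
  ext x y
  simp only [mpow, Matrix.of_apply, Matrix.one_apply]
  rw [Finset.prod_ite_zero]
  simp [funext_iff]

theorem rank_mpow (J : Type) [Fintype J] [DecidableEq J] (M : Matrix X Y k) :
    (mpow J M).rank = M.rank ^ Fintype.card J := by
  classical
  obtain ⟨U, V, L, R, h1, h2⟩ := rank_fact M
  apply le_antisymm
  · have h3 : mpow J M = mpow J U * mpow J V := by rw [← mpow_mul, ← h1]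
    rw [h3]
    refine (Matrix.rank_mul_le_left _ _).trans ((Matrix.rank_le_card_width _).trans (le_of_eq ?_))
    rw [Fintype.card_fun, Fintype.card_fin]
  · have h4 : mpow J L * mpow J M * mpow J R = 1 := by
      rw [← mpow_mul, ← mpow_mul, h2, mpow_one]
    have h5 : (mpow J L * mpow J M * mpow J R).rank = M.rank ^ Fintype.card J := by
      rw [h4, Matrix.rank_one, Fintype.card_fun, Fintype.card_fin]
    rw [← h5]
    exact (Matrix.rank_mul_le_left _ _).trans (Matrix.rank_mul_le_right _ _)

end matrix

section flat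

variable {k : Type*} [Field k] {P : Type} [DecidableEq P] {I : P → Type}

variable [Fintype P] [∀ i, Fintype (I i)]

theorem frank_le_of_hasRank {T : (∀ i, I i) → k} {r : ℕ} (h : HasRank T r) (S : Finset P) :
    frank S T ≤ r := by
  obtain ⟨ι, _, a, hr, h⟩ := h
  have h1 : flat S T = (Matrix.of fun (x : ∀ i, I i) (s : ι) => ∏ i ∈ S, a s i (x i)) *
      Matrix.of fun (s : ι) (y : ∀ i, I i) => ∏ i ∈ Sᶜ, a s i (y i) := by
    ext x y
    rw [Matrix.mul_apply]
    simp only [flat, Matrix.of_apply]
    rw [h]
    refine Finset.sum_congr rfl fun s _ => ?_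
    rw [← Finset.prod_mul_prod_compl S]
    congr 1
    · refine Finset.prod_congr rfl fun i hi => ?_
      rw [mix, if_pos hi]
    · refine Finset.prod_congr rfl fun i hi => ?_
      rw [mix, if_neg (Finset.mem_compl.mp hi)]
  rw [frank, h1]
  exact (Matrix.rank_mul_le_left _ _).trans ((Matrix.rank_le_card_width _).trans hr)

theorem frank_kpow (J : Type) [Fintype J] [DecidableEq J] (S : Finset P) (T : (∀ i, I i) → k) :
    frank S (kpow J T) = frank S T ^ Fintype.card J := by
  classical
  rw [frank, frank, ← rank_mpow J]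
  let e : (∀ i, J → I i) ≃ (J → ∀ i, I i) := Equiv.piComm _
  have h1 : flat S (kpow J T) = (mpow J (flat S T)).submatrix e e := by
    ext x y
    simp only [flat, kpow, mpow, Matrix.of_apply, Matrix.submatrix_apply, e]
    refine Finset.prod_congr rfl fun j _ => ?_
    congr 1
    funext i
    simp only [mix, Equiv.piComm_apply, Function.swap]
    split_ifs <;> rfl
  rw [h1, Matrix.rank_submatrix]

theorem frank_pos {T : (∀ i, I i) → k} (hT : T ≠ 0) (S : Finset P) : 0 < frank S T := by
  rw [Nat.pos_iff_ne_zero]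
  intro h0
  apply hT
  rw [frank, Matrix.rank, Submodule.finrank_eq_zero, LinearMap.range_eq_bot] at h0
  funext x
  classical
  have h1 := congrFun (LinearMap.congr_fun h0 (Pi.single x 1)) x
  simp only [Matrix.mulVecLin_apply, Matrix.mulVec_single_one, LinearMap.zero_apply,
    Pi.zero_apply, Matrix.col_apply, flat, Matrix.of_apply] at h1
  have : mix S x x = x := by
    funext i
    simp [mix]
  rw [this] at h1
  exact h1

theorem frank_le_mrank (S : Finset P) (T : (∀ i, I i) → k) : frank S T ≤ mrank T :=
  Finset.le_sup (f := fun S => frank S T) (Finset.mem_univ S)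

theorem exists_frank_eq (T : (∀ i, I i) → k) : ∃ S, frank S T = mrank T := by
  obtain ⟨S, -, hS⟩ := Finset.exists_mem_eq_sup Finset.univ Finset.univ_nonempty
    (fun S => frank S T)
  exact ⟨S, hS.symm⟩

theorem mrank_kpow (J : Type) [Fintype J] [DecidableEq J] (T : (∀ i, I i) → k) :
    mrank (kpow J T) = mrank T ^ Fintype.card J := by
  apply le_antisymm
  · refine Finset.sup_le fun S _ => ?_
    rw [frank_kpow]
    exact Nat.pow_le_pow_left (frank_le_mrank S T) _
  · obtain ⟨S, hS⟩ := exists_frank_eq T
    rw [← hS, ← frank_kpow]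
    exact frank_le_mrank S _

theorem mrank_pos {T : (∀ i, I i) → k} (hT : T ≠ 0) : 0 < mrank T :=
  (frank_pos hT ∅).trans_le (frank_le_mrank _ _)

theorem mrank_le_of_hasRank {T : (∀ i, I i) → k} {r : ℕ} (h : HasRank T r) : mrank T ≤ r :=
  Finset.sup_le fun S _ => frank_le_of_hasRank h S

end flat

end Pool.Agent.H2.AR
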