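import Pool.Agent.H2.AR.Span
import Pool.Agent.H14.MM.Lower

/-!
# Ranks of multiplication arrays of algebras in terms of smoothable covers
-/

open TensorProduct Module

namespace Pool.Agent.H2.AR

open Pool.Agent.H12.Defect
open Pool.Agent.H14.MM (finrank_family_le ccAlg ccAlg_apply)

universe u

variable {k : Type u} [Field k]

/-- If `B` is smoothable and `B → A` is surjective, then the Kronecker powers of the array
`w (∏ i, u i (x i))` have rank at most `poly(N) * (dim B) ^ N`. -/
theorem smoothable_rank [Infinite k] {B : Type u} [CommRing B] [Algebra k B]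
    (hB : IsSmoothable k B) {A : Type*} [CommRing A] [Algebra k A] (g : B →ₐ[k] A)
    (hg : Function.Surjective g) {P : Type} [Fintype P] [Nonempty P] {I : P → Type}
    [∀ i, Fintype (I i)] [Fintype (∀ i, I i)]
    (u : ∀ i, I i → A) (w : A →ₗ[k] k) (N : ℕ) :
    HasRank (kpow (Fin N) (fun x : ∀ i, I i => w (∏ i, u i (x i))))
      ((N + 1) ^ (Fintype.card (∀ i, I i)) * (finrank k B) ^ N) := by
  classical
  have hfinB : Module.Finite k B := (hB.finrank_le (ι := Unit) (fun _ => 0)).1
  obtain ⟨𝒜, _, _, hfin, hflat, hred, π, hπ, hker, hC⟩ := hB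
  have hfree : Module.Free (PowerSeries k) 𝒜 := Module.free_of_flat_of_isLocalRing
  have hrk := finrank_family_le hker hC
  have hsm := red_smul (k := k) hker hC
  let Ω := AlgebraicClosure (LaurentSeries k)
  have : Module.Flat (PowerSeries k) (LaurentSeries k) :=
    IsLocalization.flat _ (nonZeroDivisors (PowerSeries k))
  have hred' : IsReduced (Ω ⊗[PowerSeries k] 𝒜) := by
    have h1 : IsReduced (Ω ⊗[LaurentSeries k] (LaurentSeries k ⊗[PowerSeries k] 𝒜)) :=
      (Algebra.isGeometricallyReduced_field_iff _ _).mp hred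
    exact isReduced_of_injective
      (Algebra.TensorProduct.cancelBaseChange (PowerSeries k) (LaurentSeries k) Ω Ω 𝒜).symm
      (Algebra.TensorProduct.cancelBaseChange (PowerSeries k) (LaurentSeries k) Ω Ω 𝒜).symm.injective
  have hinj : Function.Injective (algebraMap (PowerSeries k) Ω) := by
    rw [IsScalarTower.algebraMap_eq (PowerSeries k) (LaurentSeries k) Ω]
    exact (algebraMap (LaurentSeries k) Ω).injective.comp
      (IsFractionRing.injective (PowerSeries k) (LaurentSeries k))
  let b := Module.Free.chooseBasis (PowerSeries k) 𝒜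
  have hπsum : ∀ a : 𝒜, π a = ∑ l, PowerSeries.constantCoeff (b.repr a l) • π (b l) := by
    intro a
    conv_lhs => rw [← b.sum_repr a]
    rw [map_sum]
    exact Finset.sum_congr rfl (fun l _ => hsm _ _)
  -- lifts
  choose u' hu' using fun (i : P) (j : I i) => (hg.comp hπ) (u i j)
  let w' : 𝒜 →ₗ[PowerSeries k] PowerSeries k :=
    b.constr (PowerSeries k) (fun l => PowerSeries.C (w (g (π (b l)))))
  have hw' : ∀ a, PowerSeries.constantCoeff (w' a) = w (g (π a)) := by
    intro a
    rw [hπsum a, map_sum, map_sum]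
    simp only [w', Basis.constr_apply_fintype, map_sum, smul_eq_mul, map_mul, map_smul,
      PowerSeries.constantCoeff_C, Basis.equivFun_apply]
  have hT0 : (fun x : ∀ i, I i => w (∏ i, u i (x i))) =
      fun x => ccAlg k (w' (∏ i, u' i (x i))) := by
    funext x
    rw [ccAlg_apply, hw', map_prod π, map_prod g]
    congr 1
    exact Finset.prod_congr rfl fun i _ => (hu' i (x i)).symm
  rw [hT0]
  let _ : Algebra k Ω :=
    ((algebraMap (PowerSeries k) Ω).comp (algebraMap k (PowerSeries k))).toAlgebra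
  have htower : IsScalarTower k (PowerSeries k) Ω := IsScalarTower.of_algebraMap_eq (fun _ => rfl)
  refine (hasRank_kpow_specialise (Ω := Ω) hinj (ccAlg k) (fun x => w' (∏ i, u' i (x i)))
    (D := finrank (PowerSeries k) 𝒜) ?_ N).mono (Nat.mul_le_mul_left _ (Nat.pow_le_pow_left hrk N))
  obtain ⟨τ, _, ⟨e⟩⟩ := exists_algEquiv_pi Ω (Ω ⊗[PowerSeries k] 𝒜)
  have hcard : Fintype.card τ = finrank (PowerSeries k) 𝒜 := by
    rw [← Module.finrank_baseChange (R := Ω) (S := PowerSeries k) (M' := 𝒜)]
    rw [e.toLinearEquiv.finrank_eq, Module.finrank_fintype_fun_eq_card]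
  let p : P := Classical.arbitrary P
  refine HasRank.of_fintype (fun s i j => (if i = p then ext Ω w' (e.symm (Pi.single s 1)) else 1) *
    e (1 ⊗ₜ u' i j) s) hcard.le ?_
  intro x
  have h1 : algebraMap (PowerSeries k) Ω (w' (∏ i, u' i (x i))) =
      ext Ω w' (e.symm (∏ i, e (1 ⊗ₜ u' i (x i)))) := by
    have h3 : (∏ i, (1 : Ω) ⊗ₜ[PowerSeries k] u' i (x i)) = 1 ⊗ₜ ∏ i, u' i (x i) := by
      have h4 := map_prod (Algebra.TensorProduct.includeRight :
        𝒜 →ₐ[PowerSeries k] Ω ⊗[PowerSeries k] 𝒜) (fun i => u' i (x i)) Finset.univ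
      simp only [Algebra.TensorProduct.includeRight_apply] at h4
      exact h4.symm
    rw [← map_prod, AlgEquiv.symm_apply_apply, h3, ext_tmul, Algebra.smul_def, mul_one]
  have h2 : (∏ i, e (1 ⊗ₜ u' i (x i))) =
      ∑ s, (∏ i, e (1 ⊗ₜ u' i (x i)) s) • (Pi.single s (1 : Ω) : τ → Ω) := by
    funext s
    rw [Finset.sum_apply, Finset.sum_eq_single s]
    · simp
    · intro s' _ hs'; simp [Ne.symm hs']
    · intro hh; exact absurd (Finset.mem_univ _) hh
  rw [h1, h2, map_sum, map_sum]
  refine Finset.sum_congr rfl fun s _ => ?_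
  rw [map_smul, map_smul, smul_eq_mul, Finset.prod_mul_distrib,
    Finset.prod_ite_eq' Finset.univ p, if_pos (Finset.mem_univ p), mul_comm]

end Pool.Agent.H2.AR
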