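import Pool.Agent.H2.AR.Dim
import Pool.Agent.H15.Defect.LowerPow

/-!
# Upper bound: a rank decomposition gives a smoothable cover of the apolar scheme
-/

open MvPolynomial Module TensorProduct

namespace Pool.Agent.H2.AR

open Pool.Agent.H14.RF Pool.Agent.H15.Defect Pool.Agent.H12.Defect

universe u

section dual

variable (k : Type u) [Field k]

/-- `k[ε]` is smoothable of degree two. -/
theorem dle_dual : Dle k (DualNumber k) 2 := by
  let c : PowerSeries k →+* DualNumber k :=
    (algebraMap k (DualNumber k)).comp PowerSeries.constantCoeff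
  let φ : Polynomial (PowerSeries k) →+* DualNumber k := Polynomial.eval₂RingHom c DualNumber.eps
  let pt : Fin 2 → PowerSeries k := ![0, PowerSeries.X]
  let ev : Polynomial (PowerSeries k) →ₐ[PowerSeries k] (Fin 2 → PowerSeries k) :=
    AlgHom.pi (fun i => Polynomial.aeval (pt i))
  have hev : ∀ p i, ev p i = p.eval (pt i) := fun p i => by
    simp [ev, Polynomial.aeval_def, Polynomial.eval₂_eq_eval_map]
  have h := dle_of_arc (k := k) ev φ ?_ ?_ ?_ ?_
  · simpa using h
  · intro z
    refine ⟨Polynomial.C (PowerSeries.C z.fst) +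
      Polynomial.C (PowerSeries.C z.snd) * Polynomial.X, ?_⟩
    have hal : ∀ r : k, algebraMap k (DualNumber k) r = TrivSqZeroExt.inl r := fun r => rfl
    simp only [φ, map_add, map_mul, Polynomial.coe_eval₂RingHom, Polynomial.eval₂_C,
      Polynomial.eval₂_X, c, RingHom.comp_apply, PowerSeries.constantCoeff_C, hal]
    ext
    · simp
    · simp
  · show φ (algebraMap (PowerSeries k) (Polynomial (PowerSeries k)) PowerSeries.X) = 0
    rw [Polynomial.algebraMap_eq]
    simp [φ, c]
  · intro r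
    show φ (algebraMap (PowerSeries k) (Polynomial (PowerSeries k)) (PowerSeries.C r)) = _
    rw [Polynomial.algebraMap_eq]
    simp [φ, c]
  · intro p hp
    have h0 : p.eval 0 = 0 := by
      have := (hev p 0).symm.trans (congrFun hp 0)
      exact this
    have h1 : p.eval (PowerSeries.X : PowerSeries k) = 0 := by
      have := (hev p 1).symm.trans (congrFun hp 1)
      exact this
    obtain ⟨q1, rfl⟩ := Polynomial.dvd_iff_isRoot.mpr h0
    have hX : (PowerSeries.X : PowerSeries k) ≠ 0 := PowerSeries.X_ne_zero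
    rw [Polynomial.eval_mul] at h1
    simp only [map_zero, sub_zero, Polynomial.eval_X, mul_eq_zero, hX, false_or] at h1
    obtain ⟨q2, rfl⟩ := Polynomial.dvd_iff_isRoot.mpr h1
    have e1 : φ (Polynomial.X - Polynomial.C (0 : PowerSeries k)) = DualNumber.eps := by
      simp [φ, c]
    have e2 : φ (Polynomial.X - Polynomial.C (PowerSeries.X : PowerSeries k)) =
        DualNumber.eps := by simp [φ, c]
    rw [map_mul, map_mul, e1, e2, ← mul_assoc, DualNumber.eps_mul_eps, zero_mul]

end dual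

section upper

variable {k : Type u} [Field k] {m : ℕ}

/-- a product of elements of the factors -/
theorem prod_single (z : Fin m → DualNumber k) :
    ∏ i, (PiTensorProduct.singleAlgHom (R := k) (A := fun _ : Fin m => DualNumber k) i (z i)) =
      PiTensorProduct.tprod k z := by
  simp only [PiTensorProduct.singleAlgHom_apply]
  rw [← PiTensorProduct.tprod_prod]
  exact congrArg (PiTensorProduct.tprod k) (Finset.univ_prod_mulSingle z)

theorem snd_smul_eps_pow (c : k) (d : ℕ) :
    TrivSqZeroExt.snd (c • (DualNumber.eps : DualNumber k) ^ d) = if d = 1 then c else 0 := by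
  rcases d with _ | _ | d
  · simp
  · simp
  · have : (DualNumber.eps : DualNumber k) ^ (d + 1 + 1) = 0 := by
      rw [pow_succ, pow_succ, mul_assoc, DualNumber.eps_mul_eps, mul_zero]
    simp [this]

/-- the functional on one copy of the cube -/
noncomputable def sndFun (k : Type u) [Field k] (m : ℕ) :
    (⨂[k] _ : Fin m, DualNumber k) →ₗ[k] k :=
  prodFun fun _ => TrivSqZeroExt.sndHom k k

variable {I : Fin m → Type} [∀ i, Fintype (I i)] {r : ℕ}

/-- the homomorphism to one copy of the cube -/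
noncomputable def cubeHom (a : ∀ i, I i → k) :
    MvPolynomial (Σ i, I i) k →ₐ[k] (⨂[k] _ : Fin m, DualNumber k) :=
  aeval fun q => a q.1 q.2 • PiTensorProduct.singleAlgHom (R := k)
    (A := fun _ : Fin m => DualNumber k) q.1 DualNumber.eps

theorem cubeHom_monomial (a : ∀ i, I i → k) (e : (Σ i, I i) →₀ ℕ) :
    cubeHom a (monomial e 1) = PiTensorProduct.tprod k fun i =>
      (∏ b, a i b ^ e ⟨i, b⟩) • (DualNumber.eps : DualNumber k) ^ (∑ b, e ⟨i, b⟩) := by
  rw [cubeHom, aeval_monomial, map_one, one_mul, Finsupp.prod_fintype _ _ (fun q => pow_zero _),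
    Fintype.prod_sigma, ← prod_single]
  refine Finset.prod_congr rfl fun i _ => ?_
  simp only [smul_pow]
  rw [map_smul, map_pow, Finset.prod_smul, Finset.prod_pow_eq_pow_sum]

theorem sndFun_cubeHom_monomial (a : ∀ i, I i → k) (e : (Σ i, I i) →₀ ℕ) :
    sndFun k m (cubeHom a (monomial e 1)) =
      ∏ i, if ∑ b, e ⟨i, b⟩ = 1 then ∏ b, a i b ^ e ⟨i, b⟩ else 0 := by
  rw [cubeHom_monomial, sndFun, prodFun_tprod]
  refine Finset.prod_congr rfl fun i _ => ?_
  exact snd_smul_eps_pow _ _

theorem sum_mexp (x : ∀ i, I i) (i : Fin m) : ∑ b, mexp Finset.univ x ⟨i, b⟩ = 1 := by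
  classical
  rw [Finset.sum_eq_single (x i)]
  · rw [mexp_apply, if_pos ⟨Finset.mem_univ _, rfl⟩]
  · intro b _ hb
    rw [mexp_apply, if_neg]
    rintro ⟨-, h⟩
    exact hb h.symm
  · intro h; exact absurd (Finset.mem_univ _) h

theorem prod_mexp (a : ∀ i, I i → k) (x : ∀ i, I i) (i : Fin m) :
    ∏ b, a i b ^ mexp Finset.univ x ⟨i, b⟩ = a i (x i) := by
  classical
  rw [Finset.prod_eq_single (x i)]
  · rw [mexp_apply, if_pos ⟨Finset.mem_univ _, rfl⟩, pow_one]
  · intro b _ hb
    rw [mexp_apply, if_neg, pow_zero]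
    rintro ⟨-, h⟩
    exact hb h.symm
  · intro h; exact absurd (Finset.mem_univ _) h

omit [∀ i, Fintype (I i)] in
theorem eq_mexp_of_sum [∀ i, Fintype (I i)] {e : (Σ i, I i) →₀ ℕ}
    (h : ∀ i, ∑ b, e ⟨i, b⟩ = 1) : ∃ x, e = mexp Finset.univ x := by
  classical
  have h1 : ∀ i, ∃ b, e ⟨i, b⟩ ≠ 0 := by
    intro i
    obtain ⟨b, -, hb⟩ := Finset.exists_ne_zero_of_sum_ne_zero
      (show ∑ b, e ⟨i, b⟩ ≠ 0 by rw [h i]; exact one_ne_zero)
    exact ⟨b, hb⟩
  choose x hx using h1
  refine ⟨x, ?_⟩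
  ext ⟨i, b⟩
  rw [mexp_apply]
  have h2 := h i
  rw [← Finset.add_sum_erase _ _ (Finset.mem_univ (x i))] at h2
  by_cases hb : x i = b
  · subst hb
    rw [if_pos ⟨Finset.mem_univ _, rfl⟩]
    have := hx i
    omega
  · rw [if_neg (fun h3 => hb h3.2)]
    have h3 : e ⟨i, b⟩ ≤ ∑ b ∈ Finset.univ.erase (x i), e ⟨i, b⟩ :=
      Finset.single_le_sum (f := fun b => e ⟨i, b⟩) (fun _ _ => Nat.zero_le _)
        (Finset.mem_erase.mpr ⟨Ne.symm hb, Finset.mem_univ _⟩)
    have := hx i
    omega

theorem mform_eq_sum {T : (∀ i, I i) → k} (a : Fin r → ∀ i, I i → k)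
    (h : ∀ x, T x = ∑ s, ∏ i, a s i (x i)) :
    mform T = ∑ s, sndFun k m ∘ₗ (cubeHom (a s)).toLinearMap := by
  refine MvPolynomial.linearMap_ext fun e => LinearMap.ext_ring ?_
  simp only [LinearMap.coe_comp, Function.comp_apply, LinearMap.sum_apply,
    AlgHom.toLinearMap_apply]
  by_cases he : ∃ x, e = mexp Finset.univ x
  · obtain ⟨x, rfl⟩ := he
    rw [mform_monomial, h]
    refine Finset.sum_congr rfl fun s _ => ?_
    rw [sndFun_cubeHom_monomial]
    refine Finset.prod_congr rfl fun i _ => ?_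
    rw [sum_mexp, if_pos rfl, prod_mexp]
  · rw [mform_monomial_of_ne T (fun x hx => he ⟨x, hx⟩)]
    symm
    refine Finset.sum_eq_zero fun s _ => ?_
    rw [sndFun_cubeHom_monomial, Finset.prod_eq_zero_iff]
    by_contra hne
    push Not at hne
    apply he
    apply eq_mexp_of_sum
    intro i
    by_contra h1
    exact hne i (Finset.mem_univ _) (if_neg h1)

/-- **Upper bound.** -/
theorem dle_form {T : (∀ i, I i) → k} (h : HasRank T r) :
    Dle k (FormAlg (mform T)) (2 ^ m * r) := by
  obtain ⟨ι, _, a', hr, h'⟩ := h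
  let e := Fintype.equivFin ι
  let R := Fintype.card ι
  let a : Fin R → ∀ i, I i → k := fun s => a' (e.symm s)
  have ha : ∀ x, T x = ∑ s, ∏ i, a s i (x i) := by
    intro x
    rw [h', ← Equiv.sum_comp e.symm]
  have h1 := ((dle_dual k).pow m).pi R
  let ψ : MvPolynomial (Σ i, I i) k →ₐ[k] (Fin R → ⨂[k] _ : Fin m, DualNumber k) :=
    AlgHom.pi fun s => cubeHom (a s)
  have h2 : Dle k (MvPolynomial (Σ i, I i) k ⧸ RingHom.ker ψ) (R * 2 ^ m) :=
    h1.of_injective (Ideal.kerLiftAlg ψ) (Ideal.kerLiftAlg_injective ψ)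
  have hle : RingHom.ker ψ ≤ annIdeal (mform T) := by
    intro g hg
    rw [RingHom.mem_ker] at hg
    intro q
    rw [mform_eq_sum a ha]
    simp only [LinearMap.sum_apply, LinearMap.coe_comp, Function.comp_apply,
      AlgHom.toLinearMap_apply, map_mul]
    refine Finset.sum_eq_zero fun s _ => ?_
    have h3 : cubeHom (a s) g = 0 := congrFun hg s
    rw [h3, zero_mul, map_zero]
  have h3 := h2.of_surjective (Ideal.Quotient.factorₐ k hle) (Ideal.Quotient.factor_surjective hle)
  refine h3.mono ?_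
  rw [mul_comm]
  exact Nat.mul_le_mul_left _ hr

theorem dle_form_pow {T : (∀ i, I i) → k} (h : HasRank T r) (n : ℕ) :
    Dle k (⨂[k] _ : Fin n, FormAlg (mform T)) ((2 ^ m * r) ^ n) := (dle_form h).pow n

end upper

end Pool.Agent.H2.AR
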