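import Pool.Agent.H2.AR.Lower
import Pool.Agent.H2.AR.Upper

/-!
# Lower bound: a smoothable cover of a power gives rank decompositions of Kronecker powers
-/

open MvPolynomial Module TensorProduct

namespace Pool.Agent.H2.AR

open Pool.Agent.H14.RF Pool.Agent.H15.Defect Pool.Agent.H12.Defect

universe u

variable {k : Type u} [Field k] {m : ℕ} {I : Fin m → Type} [∀ i, Fintype (I i)]

/-- the functional of the apolar algebra -/
theorem exists_formFun {σ : Type*} (φ : MvPolynomial σ k →ₗ[k] k) :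
    ∃ w : FormAlg φ →ₗ[k] k, ∀ g, w (Ideal.Quotient.mk _ g) = φ g := by
  let π := (Ideal.Quotient.mkₐ k (annIdeal φ)).toLinearMap
  have hπ : Function.Surjective π := Ideal.Quotient.mk_surjective
  have hker : LinearMap.ker π ≤ LinearMap.ker φ := by
    intro g hg
    have h1 : g ∈ annIdeal φ := Ideal.Quotient.eq_zero_iff_mem.mp hg
    have h2 := h1 1
    rwa [mul_one] at h2
  refine ⟨(Submodule.liftQ _ φ hker) ∘ₗ (π.quotKerEquivOfSurjective hπ).symm.toLinearMap, ?_⟩
  intro g
  have h3 : (π.quotKerEquivOfSurjective hπ).symm (Ideal.Quotient.mk _ g) =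
      Submodule.Quotient.mk g := by
    rw [LinearEquiv.symm_apply_eq]
    rfl
  rw [LinearMap.comp_apply, LinearEquiv.coe_coe, h3, Submodule.liftQ_apply]

/-- **Lower bound.** -/
theorem hasRank_of_dle [Infinite k] [Nonempty (Fin m)] {T : (∀ i, I i) → k} {n D : ℕ}
    (h : Dle k (⨂[k] _ : Fin n, FormAlg (mform T)) D) (N : ℕ) :
    HasRank (kpow (Fin N) (kpow (Fin n) T))
      ((N + 1) ^ Fintype.card (∀ i, Fin n → I i) * D ^ N) := by
  obtain ⟨B, i1, i2, hB, ⟨g, hg⟩, hfin⟩ := h
  obtain ⟨w, hw⟩ := exists_formFun (mform T)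
  have h1 := smoothable_rank hB g hg (I := fun i => Fin n → I i)
    (fun i a => PiTensorProduct.tprod k fun j => Ideal.Quotient.mk _ (X ⟨i, a j⟩))
    (prodFun fun _ => w) N
  have h2 : (fun x : ∀ i, Fin n → I i => (prodFun fun _ => w)
      (∏ i, (PiTensorProduct.tprod k fun j : Fin n => (Ideal.Quotient.mk (annIdeal (mform T))
        (X ⟨i, x i j⟩))))) = kpow (Fin n) T := by
    funext x
    rw [← PiTensorProduct.tprod_prod, prodFun_tprod, kpow_apply]
    refine Finset.prod_congr rfl fun j _ => ?_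
    rw [Finset.prod_apply, ← map_prod, hw, mform_prod]
  rw [h2] at h1
  exact h1.mono (Nat.mul_le_mul_left _ (Nat.pow_le_pow_left hfin N))

end Pool.Agent.H2.AR
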