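import Pool.Agent.H2.AR.Flat

/-!
# An array all of whose flattenings have rank at most one is a product
-/

open Module

namespace Pool.Agent.H2.AR

variable {k : Type*} [Field k]

theorem minor_of_rank_le_one {X Y : Type} [Fintype X] [Fintype Y] {M : Matrix X Y k}
    (h : M.rank ≤ 1) (a c : X) (b d : Y) : M a b * M c d = M a d * M c b := by
  obtain ⟨U, V, -, -, hM, -⟩ := rank_fact M
  have hsub : Subsingleton (Fin M.rank) := by
    rw [← Fintype.card_le_one_iff_subsingleton, Fintype.card_fin]
    exact h
  have h1 : ∀ x y, M x y = ∑ i, U x i * V i y := fun x y => by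
    rw [← Matrix.mul_apply, ← hM]
  rw [h1 a b, h1 c d, h1 a d, h1 c b, Finset.sum_mul_sum, Finset.sum_mul_sum]
  refine Finset.sum_congr rfl fun i _ => Finset.sum_congr rfl fun j _ => ?_
  rw [Subsingleton.elim j i]
  ring

variable {P : Type} [Fintype P] [DecidableEq P] {I : P → Type} [∀ i, Fintype (I i)]

theorem hasRank_one_of_mrank [Nonempty P] {T : (∀ i, I i) → k} (h : mrank T ≤ 1) :
    HasRank T 1 := by
  classical
  by_cases hT : T = 0
  · rw [hT]; exact HasRank.zero.mono (Nat.zero_le 1)
  obtain ⟨z, hz⟩ := Function.ne_iff.mp hT
  rw [Pi.zero_apply] at hz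
  have key : ∀ (x : ∀ i, I i) (S : Finset P),
      T (mix S x z) = T z * ∏ i ∈ S, (T (mix {i} x z) / T z) := by
    intro x S
    induction S using Finset.induction_on with
    | empty =>
      have : mix ∅ x z = z := by funext i; simp [mix]
      rw [this, Finset.prod_empty, mul_one]
    | insert i S hi ih =>
      have h1 := minor_of_rank_le_one ((frank_le_mrank {i} T).trans h)
        (mix (insert i S) x z) z (mix (insert i S) x z) z
      simp only [flat, Matrix.of_apply] at h1
      have e1 : mix {i} (mix (insert i S) x z) (mix (insert i S) x z) = mix (insert i S) x z := by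
        funext j; simp [mix]
      have e2 : mix {i} z z = z := by funext j; simp [mix]
      have e3 : mix {i} (mix (insert i S) x z) z = mix {i} x z := by
        funext j
        by_cases hj : j = i
        · subst hj; simp [mix]
        · simp [mix, hj]
      have e4 : mix {i} z (mix (insert i S) x z) = mix S x z := by
        funext j
        by_cases hj : j = i
        · subst hj; simp [mix, hi]
        · simp [mix, hj]
      rw [e1, e2, e3, e4] at h1
      rw [Finset.prod_insert hi]
      rw [← mul_right_inj' hz, mul_comm (T z) (T _), h1, ih]
      field_simp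
  have h2 : T = T z • fun x : (∀ i, I i) => ∏ i, (T (mix {i} x z) / T z) := by
    funext x
    have h3 := key x Finset.univ
    have h4 : mix Finset.univ x z = x := by funext j; simp [mix]
    rw [h4] at h3
    exact h3
  rw [h2]
  apply HasRank.smul
  refine ⟨Unit, inferInstance, fun _ i a => T (Function.update z i a) / T z, by simp, ?_⟩
  intro x
  simp only [Finset.univ_unique, Finset.sum_singleton]
  refine Finset.prod_congr rfl fun i _ => ?_
  congr 2
  funext j
  by_cases hj : j = i
  · subst hj; simp [mix]
  · simp [mix, hj]

end Pool.Agent.H2.AR
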