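import Pool.Agent.H2.AR.Asym
import Pool.Agent.H2.AR.RankOne
import Pool.Agent.H14.RF.Growth

/-!
# The asymptotic rank and the growth of the smoothability defect
-/

open Module TensorProduct Filter Topology
open scoped ENNReal

namespace Pool.Agent.H2.AR

open Pool.Agent.H14.RF Pool.Agent.H15.Defect Pool.Agent.H12.Defect Pool.Agent.H14.MM

universe u

theorem le_of_pow_le_const {x y C : ℝ} (hy : 0 < y) {N₀ : ℕ}
    (h : ∀ N : ℕ, N₀ ≤ N → x ^ N ≤ C * y ^ N) : x ≤ y := by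
  by_contra hlt
  rw [not_le] at hlt
  have h1 : 1 < x / y := by rwa [one_lt_div hy]
  have h2 := tendsto_pow_atTop_atTop_of_one_lt h1
  obtain ⟨N, hN1, hN2⟩ := ((h2.eventually_gt_atTop C).and (eventually_ge_atTop N₀)).exists
  have h3 := h N hN2
  rw [div_pow, lt_div_iff₀ (by positivity)] at hN1
  exact absurd h3 (not_le.mpr hN1)

section growth

variable {k : Type u} [Field k] {A : Type u} [CommRing A] [Algebra k A] [Module.Finite k A]
  [Nontrivial A]

theorem growthRatio_anti {ε ε' : ℝ} (h : ε ≤ ε') (n : ℕ) :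
    growthRatio k A ε' n ≤ growthRatio k A ε n := by
  have hd : (1 : ℝ) ≤ finrank k A := by exact_mod_cast Module.finrank_pos (R := k) (M := A)
  rw [growthRatio, growthRatio]
  apply ENNReal.div_le_div_left
  apply ENNReal.ofReal_le_ofReal
  apply Real.rpow_le_rpow_of_exponent_le hd
  have : (0 : ℝ) ≤ n := Nat.cast_nonneg n
  nlinarith

theorem tendsto_growthRatio_anti {ε ε' : ℝ} (h : ε ≤ ε')
    (ht : Tendsto (growthRatio k A ε) atTop (𝓝 0)) :
    Tendsto (growthRatio k A ε') atTop (𝓝 0) :=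
  tendsto_of_tendsto_of_tendsto_of_le_of_le tendsto_const_nhds ht (fun _ => bot_le)
    (fun n => growthRatio_anti h n)

omit [Module.Finite k A] [Nontrivial A] in
theorem bd_of_dle {D : ℕ} (h : Dle k A D) {r : ℝ} (hr : (D : ℝ) ≤ r) : Bd k A r := by
  intro ρ hρ
  refine ⟨1, fun n => ⟨D ^ n, h.pow n, ?_⟩⟩
  rw [one_mul]
  push_cast
  exact pow_le_pow_left₀ (Nat.cast_nonneg _) (hr.trans hρ.le) n

end growth

section law

variable {k : Type u} [Field k] {m : ℕ} {I : Fin m → Type} [∀ i, Fintype (I i)]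

/-- The apolar algebra of the `N`-th Kronecker power. -/
abbrev PowAlg (T : (∀ i, I i) → k) (N : ℕ) : Type u := FormAlg (mform (kpow (Fin N) T))

theorem asymRank_pow_le_of_dle_kpow [Infinite k] [Nonempty (Fin m)] {T : (∀ i, I i) → k}
    (hT : T ≠ 0) {N n D : ℕ} (h : Dle k (⨂[k] _ : Fin n, PowAlg T N) D) :
    asymRank T ^ (N * n) ≤ D := by
  apply le_of_pow_le (Nat.cast_nonneg D) (K := Fintype.card (∀ i, Fin n → Fin N → I i))
  intro M
  have h1 := (hasRank_of_dle h M).kpow_kpow.kpow_kpow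
  have h2 := asymRank_pow_le' hT h1
  rw [Fintype.card_prod, Fintype.card_prod, Fintype.card_fin, Fintype.card_fin,
    Fintype.card_fin] at h2
  push_cast at h2
  rwa [← pow_mul, show N * n * M = M * n * N by ring]

/-- **The law.** -/
theorem law [Infinite k] [Nonempty (Fin m)] {T : (∀ i, I i) → k} (hT : T ≠ 0) (N n : ℕ) :
    defect k (⨂[k] _ : Fin n, PowAlg T N) ≠ ⊤ ∧
    asymRank T ^ (N * n) ≤
      ((finrank k (PowAlg T N) ^ n + (defect k (⨂[k] _ : Fin n, PowAlg T N)).toNat : ℕ) : ℝ) ∧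
    finrank k (PowAlg T N) ^ n + (defect k (⨂[k] _ : Fin n, PowAlg T N)).toNat ≤
      (2 ^ m * rk (kpow (Fin N) T)) ^ n := by
  have h1 := dle_form_pow (hasRank_rk (kpow (Fin N) T)) n
  obtain ⟨h2, h3, h4⟩ := defect_eq h1
  rw [finrank_power] at h4
  refine ⟨h2, ?_, h4⟩
  have h5 := finrank_add_le_of_mem h3
  rw [finrank_power] at h5
  exact asymRank_pow_le_of_dle_kpow hT h5

theorem one_le_mrank {T : (∀ i, I i) → k} (hT : T ≠ 0) : (1 : ℝ) ≤ mrank T := by
  exact_mod_cast mrank_pos hT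

theorem nontrivial_powAlg {T : (∀ i, I i) → k} (hT : T ≠ 0) (N : ℕ) :
    Nontrivial (PowAlg T N) := nontrivial_formAlg (mform_ne_zero (kpow_ne_zero hT (Fin N)))

theorem finrank_powAlg_le (T : (∀ i, I i) → k) (N : ℕ) :
    (finrank k (PowAlg T N) : ℝ) ≤ 2 ^ m * (mrank T : ℝ) ^ N := by
  have h1 := finrank_form_le (kpow (Fin N) T)
  rw [mrank_kpow, Fintype.card_fin, Fintype.card_fin] at h1
  exact_mod_cast h1

theorem le_finrank_powAlg (T : (∀ i, I i) → k) (N : ℕ) :
    (mrank T : ℝ) ^ N ≤ finrank k (PowAlg T N) := by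
  have h1 := mrank_le_finrank_form (kpow (Fin N) T)
  rw [mrank_kpow, Fintype.card_fin] at h1
  exact_mod_cast h1

/-- an upper bound for the asymptotic rank gives the limits -/
theorem tendsto_of_asymRank [Nonempty (Fin m)] {T : (∀ i, I i) → k} (hT : T ≠ 0)
    {e : ℝ} (he : 0 ≤ e) (h : asymRank T ≤ (mrank T : ℝ) ^ (1 + e)) {ε : ℝ} (hε : e < ε) :
    ∀ᶠ N : ℕ in atTop, Tendsto (growthRatio k (PowAlg T N) ε) atTop (𝓝 0) := by
  rcases Nat.lt_or_ge 1 (mrank T) with hf | hf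
  · have hf1 : (1 : ℝ) < mrank T := by exact_mod_cast hf
    have hf0 : (0 : ℝ) < mrank T := by linarith
    set f : ℝ := ((mrank T : ℕ) : ℝ) with hfdef
    set ε₁ : ℝ := e + (ε - e) / 3 with hε₁
    set ε₂ : ℝ := e + 2 * (ε - e) / 3 with hε₂
    have hc : asymRank T < f ^ (1 + ε₁) :=
      lt_of_le_of_lt h (Real.rpow_lt_rpow_of_exponent_lt hf1 (by linarith))
    obtain ⟨C, hC0, hC⟩ := exists_rank_bound
      (Real.one_le_rpow hf1.le (by linarith : (0 : ℝ) ≤ 1 + ε₁)) hc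
    have hr : 1 < f ^ (1 + ε₂) / f ^ (1 + ε₁) := by
      rw [one_lt_div (Real.rpow_pos_of_pos hf0 _)]
      exact Real.rpow_lt_rpow_of_exponent_lt hf1 (by linarith)
    have h2 := tendsto_pow_atTop_atTop_of_one_lt hr
    filter_upwards [h2.eventually_ge_atTop (2 ^ m * C)] with N hN
    have := nontrivial_powAlg hT N
    have h3 : ((2 ^ m * rk (kpow (Fin N) T) : ℕ) : ℝ) ≤
        (finrank k (PowAlg T N) : ℝ) ^ (1 + ε₂) := by
      push_cast
      calc (2 : ℝ) ^ m * rk (kpow (Fin N) T) ≤ 2 ^ m * (C * (f ^ (1 + ε₁)) ^ N) := by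
            gcongr; exact hC N
        _ = (2 ^ m * C) * (f ^ (1 + ε₁)) ^ N := by ring
        _ ≤ (f ^ (1 + ε₂) / f ^ (1 + ε₁)) ^ N * (f ^ (1 + ε₁)) ^ N := by gcongr
        _ = (f ^ (1 + ε₂)) ^ N := by
            rw [← mul_pow, div_mul_cancel₀ _ (Real.rpow_pos_of_pos hf0 _).ne']
        _ = (f ^ N) ^ (1 + ε₂) := by
            rw [← Real.rpow_natCast, ← Real.rpow_natCast, ← Real.rpow_mul hf0.le,
              ← Real.rpow_mul hf0.le, mul_comm]
        _ ≤ _ := Real.rpow_le_rpow (by positivity) (le_finrank_powAlg T N) (by linarith)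
    exact (bd_of_dle (dle_form (hasRank_rk (kpow (Fin N) T))) h3).tendsto (by linarith)
  · refine Eventually.of_forall fun N => ?_
    have := nontrivial_powAlg hT N
    have h1 : HasRank (kpow (Fin N) T) 1 := by
      have := (hasRank_one_of_mrank hf).kpow (Fin N)
      rwa [one_pow] at this
    have h2 : 2 ^ m * 1 ≤ finrank k (PowAlg T N) := by
      rw [finrank_form]
      have h3 := Finset.card_nsmul_le_sum (Finset.univ : Finset (Finset (Fin m)))
        (fun S => frank S (kpow (Fin N) T)) 1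
        (fun S _ => frank_pos (kpow_ne_zero hT (Fin N)) S)
      rwa [smul_eq_mul, Finset.card_univ, Fintype.card_finset, Fintype.card_fin] at h3
    have h4 : Bd k (PowAlg T N) ((finrank k (PowAlg T N) : ℝ) ^ (1 + (0 : ℝ))) := by
      rw [add_zero, Real.rpow_one]
      exact bd_of_dle (dle_form h1) (by exact_mod_cast h2)
    exact h4.tendsto (lt_of_le_of_lt he hε)

/-- the limits give an upper bound for the asymptotic rank -/
theorem asymRank_le_of_tendsto [IsAlgClosed k] [Nonempty (Fin m)] {T : (∀ i, I i) → k}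
    (hT : T ≠ 0) {ε : ℝ} (hε : 0 ≤ ε)
    (h : ∀ᶠ N : ℕ in atTop, Tendsto (growthRatio k (PowAlg T N) ε) atTop (𝓝 0)) :
    asymRank T ≤ (mrank T : ℝ) ^ (1 + ε) := by
  have : Infinite k := IsAlgClosed.instInfinite
  obtain ⟨N₀, hN₀⟩ := h.exists_forall_of_atTop
  have hf0 : (0 : ℝ) < mrank T := lt_of_lt_of_le one_pos (one_le_mrank hT)
  refine le_of_pow_le_const (Real.rpow_pos_of_pos hf0 _) (N₀ := N₀)
    (C := ((2 : ℝ) ^ m) ^ (1 + ε)) fun N hN => ?_
  have := nontrivial_powAlg hT N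
  obtain ⟨α⟩ := exists_point (k := k) (A := PowAlg T N)
  have h1 : Bd k (PowAlg T N) ((finrank k (PowAlg T N) : ℝ) ^ (1 + ε)) :=
    Bd.of_tendsto hε α fun ε' hε' => tendsto_growthRatio_anti hε'.le (hN₀ N hN)
  have hd0 : (0 : ℝ) < finrank k (PowAlg T N) := by exact_mod_cast Module.finrank_pos
  have h2 : asymRank T ^ N ≤ (finrank k (PowAlg T N) : ℝ) ^ (1 + ε) := by
    refine le_of_forall_gt_imp_ge_of_dense fun ρ hρ => ?_
    obtain ⟨C, hC⟩ := h1 ρ hρ
    refine le_of_pow_le_const ((Real.rpow_pos_of_pos hd0 _).trans hρ) (N₀ := 0) (C := C)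
      fun n _ => ?_
    obtain ⟨D, hD, hle⟩ := hC n
    rw [← pow_mul]
    exact (asymRank_pow_le_of_dle_kpow hT hD).trans hle
  refine h2.trans ?_
  calc (finrank k (PowAlg T N) : ℝ) ^ (1 + ε) ≤ (2 ^ m * (mrank T : ℝ) ^ N) ^ (1 + ε) :=
        Real.rpow_le_rpow hd0.le (finrank_powAlg_le T N) (by linarith)
    _ = _ := by
        rw [Real.mul_rpow (by positivity) (by positivity)]
        congr 1
        rw [← Real.rpow_natCast, ← Real.rpow_natCast, ← Real.rpow_mul hf0.le,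
          ← Real.rpow_mul hf0.le, mul_comm]

/-- **The equivalence.** -/
theorem asymRank_le_iff [IsAlgClosed k] [Nonempty (Fin m)] {T : (∀ i, I i) → k} (hT : T ≠ 0)
    {e : ℝ} (he : 0 ≤ e) :
    asymRank T ≤ (mrank T : ℝ) ^ (1 + e) ↔
      ∀ ε : ℝ, e < ε → ∀ᶠ N : ℕ in atTop, Tendsto (growthRatio k (PowAlg T N) ε) atTop (𝓝 0) := by
  refine ⟨fun h ε hε => tendsto_of_asymRank hT he h hε, fun h => ?_⟩
  have hf0 : (0 : ℝ) < mrank T := lt_of_lt_of_le one_pos (one_le_mrank hT)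
  have h1 : ∀ ε : ℝ, e < ε → asymRank T ≤ (mrank T : ℝ) ^ (1 + ε) :=
    fun ε hε => asymRank_le_of_tendsto hT (he.trans hε.le) (h ε hε)
  have h2 : Tendsto (fun ε : ℝ => (mrank T : ℝ) ^ (1 + ε)) (𝓝[>] e) (𝓝 ((mrank T : ℝ) ^ (1 + e))) := by
    apply Tendsto.mono_left _ nhdsWithin_le_nhds
    have : Continuous fun ε : ℝ => (mrank T : ℝ) ^ (1 + ε) :=
      Real.continuous_const_rpow hf0.ne' |>.comp (continuous_const.add continuous_id)
    exact this.tendsto e
  exact ge_of_tendsto h2 (eventually_nhdsWithin_of_forall fun ε hε => h1 ε hε)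

end law

end Pool.Agent.H2.AR
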