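import Pool.Agent.H2.AR.Flat
import Pool.Agent.H14.RF.Defs

/-!
# The apolar algebra of the multilinear form of an array
-/

open MvPolynomial Module

namespace Pool.Agent.H2.AR

open Pool.Agent.H14.RF

section expo

variable {P : Type} {I : P → Type}

open Classical in
theorem mexp_apply (S : Finset P) (x : ∀ i, I i) (q : Σ i, I i) :
    mexp S x q = if q.1 ∈ S ∧ x q.1 = q.2 then 1 else 0 := by
  obtain ⟨j, a⟩ := q
  rw [mexp, Finsupp.finsetSum_apply]
  simp only [Finsupp.single_apply]
  by_cases hj : j ∈ S
  · rw [Finset.sum_eq_single j]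
    · by_cases ha : x j = a
      · subst ha
        simp [hj]
      · rw [if_neg, if_neg]
        · rintro ⟨-, h⟩; exact ha h
        · intro h
          rw [Sigma.mk.injEq] at h
          exact ha (eq_of_heq h.2)
    · intro i _ hi
      rw [if_neg]
      intro h
      rw [Sigma.mk.injEq] at h
      exact hi h.1
    · intro h; exact absurd hj h
  · rw [if_neg (fun h => hj h.1)]
    refine Finset.sum_eq_zero fun i hi => ?_
    rw [if_neg]
    intro h
    rw [Sigma.mk.injEq] at h
    exact hj (h.1 ▸ hi)

theorem mexp_congr {S : Finset P} {x y : ∀ i, I i} (h : ∀ i ∈ S, x i = y i) :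
    mexp S x = mexp S y := by
  rw [mexp, mexp]
  exact Finset.sum_congr rfl fun i hi => by rw [h i hi]

theorem mexp_add_compl [Fintype P] [DecidableEq P] (S : Finset P) (x y : ∀ i, I i) :
    mexp S x + mexp Sᶜ y = mexp Finset.univ (mix S x y) := by
  rw [mexp, mexp, mexp, ← Finset.sum_add_sum_compl S]
  congr 1
  · exact Finset.sum_congr rfl fun i hi => by rw [mix, if_pos hi]
  · exact Finset.sum_congr rfl fun i hi => by rw [mix, if_neg (Finset.mem_compl.mp hi)]

theorem mexp_inj [Fintype P] {x y : ∀ i, I i} (h : mexp Finset.univ x = mexp Finset.univ y) :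
    x = y := by
  classical
  funext i
  have h1 := DFunLike.congr_fun h ⟨i, x i⟩
  rw [mexp_apply, mexp_apply] at h1
  simp only [Finset.mem_univ, true_and, if_true] at h1
  by_contra hne
  rw [if_neg (Ne.symm hne)] at h1
  exact one_ne_zero h1

theorem eq_mexp_of_le [Fintype P] {e : (Σ i, I i) →₀ ℕ} {x : ∀ i, I i}
    (h : e ≤ mexp Finset.univ x) :
    e = mexp (Finset.univ.filter fun i => e ⟨i, x i⟩ = 1) x := by
  classical
  ext ⟨i, a⟩
  rw [mexp_apply]
  have h1 := h ⟨i, a⟩
  rw [mexp_apply] at h1
  simp only [Finset.mem_univ, true_and] at h1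
  simp only [Finset.mem_filter, Finset.mem_univ, true_and]
  by_cases ha : x i = a
  · subst ha
    rw [if_pos rfl] at h1
    by_cases h2 : e ⟨i, x i⟩ = 1
    · rw [if_pos ⟨h2, rfl⟩, h2]
    · rw [if_neg (fun h3 => h2 h3.1)]
      omega
  · rw [if_neg ha] at h1
    rw [if_neg (fun h3 => ha h3.2)]
    omega

theorem eq_mexp_of_add [Fintype P] [DecidableEq P] {e : (Σ i, I i) →₀ ℕ} {S : Finset P}
    {x y : ∀ i, I i} (h : e + mexp Sᶜ y = mexp Finset.univ x) : e = mexp S x := by
  classical
  have hxy : ∀ i ∈ Sᶜ, y i = x i := by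
    intro i hi
    have h1 := DFunLike.congr_fun h ⟨i, y i⟩
    rw [Finsupp.add_apply, mexp_apply, mexp_apply] at h1
    simp only [hi, Finset.mem_univ, true_and, if_true] at h1
    by_contra hne
    rw [if_neg (Ne.symm hne)] at h1
    omega
  rw [mexp_congr hxy] at h
  have h2 := mexp_add_compl S x x
  have h3 : mix S x x = x := by
    funext i
    simp [mix]
  rw [h3] at h2
  rw [← h2] at h
  exact add_right_cancel h

/-- the set of factors of the monomial is determined by the monomial -/
theorem mexp_left_inj {S S' : Finset P} {x y : ∀ i, I i} (h : mexp S x = mexp S' y) :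
    S = S' := by
  classical
  ext i
  constructor
  · intro hi
    have h1 := DFunLike.congr_fun h ⟨i, x i⟩
    rw [mexp_apply, mexp_apply, if_pos ⟨hi, rfl⟩] at h1
    by_contra hne
    rw [if_neg (fun h2 => hne h2.1)] at h1
    exact one_ne_zero h1
  · intro hi
    have h1 := DFunLike.congr_fun h.symm ⟨i, y i⟩
    rw [mexp_apply, mexp_apply, if_pos ⟨hi, rfl⟩] at h1
    by_contra hne
    rw [if_neg (fun h2 => hne h2.1)] at h1
    exact one_ne_zero h1

end expo

section form

variable {k : Type*} [Field k] {P : Type} [Fintype P] [DecidableEq P] {I : P → Type}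
  [∀ i, Fintype (I i)]

theorem mform_apply (T : (∀ i, I i) → k) (g : MvPolynomial (Σ i, I i) k) :
    mform T g = ∑ x, T x * coeff (mexp Finset.univ x) g := by
  simp [mform]

theorem mform_monomial (T : (∀ i, I i) → k) (x : ∀ i, I i) :
    mform T (monomial (mexp Finset.univ x) 1) = T x := by
  classical
  rw [mform_apply, Finset.sum_eq_single x]
  · simp
  · intro y _ hy
    rw [coeff_monomial, if_neg, mul_zero]
    intro h
    exact hy (mexp_inj h).symm
  · intro h; exact absurd (Finset.mem_univ _) h

theorem mform_monomial_of_ne (T : (∀ i, I i) → k) {e : (Σ i, I i) →₀ ℕ}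
    (h : ∀ x, e ≠ mexp Finset.univ x) : mform T (monomial e 1) = 0 := by
  classical
  rw [mform_apply]
  refine Finset.sum_eq_zero fun x _ => ?_
  rw [coeff_monomial, if_neg (h x), mul_zero]

theorem mform_mul_monomial_of_ne (T : (∀ i, I i) → k) {e : (Σ i, I i) →₀ ℕ}
    (h : ∀ S x, e ≠ mexp S x) (g : MvPolynomial (Σ i, I i) k) :
    mform T (g * monomial e 1) = 0 := by
  classical
  rw [mform_apply]
  refine Finset.sum_eq_zero fun x _ => ?_
  rw [coeff_mul_monomial', if_neg, mul_zero]
  intro hle
  exact h _ _ (eq_mexp_of_le hle)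

omit [Fintype P] [DecidableEq P] [∀ i, Fintype (I i)] in
theorem monomial_mexp (S : Finset P) (x : ∀ i, I i) :
    (monomial (mexp S x) 1 : MvPolynomial (Σ i, I i) k) = ∏ i ∈ S, X ⟨i, x i⟩ := by
  classical
  rw [mexp, monomial_sum_one]
  rfl

/-- the array as the values of the functional on products -/
theorem mform_prod (T : (∀ i, I i) → k) (x : ∀ i, I i) :
    mform T (∏ i, X ⟨i, x i⟩) = T x := by
  rw [← monomial_mexp, mform_monomial]

end form

end Pool.Agent.H2.AR
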