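import Pool.Agent.H2.AR.Arr

/-!
# Kronecker powers of specialisations of arrays of bounded rank
-/

open Module

namespace Pool.Agent.H2.AR

variable {k : Type*} [Field k] {P : Type} [Fintype P] {I : P → Type} [∀ i, Fintype (I i)]

/-- Kronecker powers of arrays of rank at most `D`. -/
def kpows (k : Type*) [Field k] {P : Type} [Fintype P] (I : P → Type) (D N : ℕ) :
    Set ((∀ i, Fin N → I i) → k) :=
  {S | ∃ T : (∀ i, I i) → k, HasRank T D ∧ S = kpow (Fin N) T}

/-- indicator of multi-indices with given content -/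
noncomputable def chi (k : Type*) [Field k] {P : Type} (I : P → Type) (N : ℕ)
    (e : (∀ i, I i) → Fin (N + 1)) : (∀ i, Fin N → I i) → k := by
  classical
  exact fun x => if ∀ a, (Finset.univ.filter fun j => (fun i => x i j) = a).card = (e a : ℕ)
    then 1 else 0

omit [Fintype P] [∀ i, Fintype (I i)] in
theorem kpow_mem_chi [Fintype (∀ i, I i)] (N : ℕ) (T : (∀ i, I i) → k) :
    kpow (Fin N) T ∈ Submodule.span k (Set.range (chi k I N)) := by
  classical
  have h1 : kpow (Fin N) T = ∑ e : (∀ i, I i) → Fin (N + 1),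
      (∏ a, T a ^ (e a : ℕ)) • chi k I N e := by
    funext x
    simp only [Finset.sum_apply, Pi.smul_apply, smul_eq_mul]
    let e₀ : (∀ i, I i) → Fin (N + 1) := fun a =>
      ⟨(Finset.univ.filter fun j => (fun i => x i j) = a).card, by
        have := Finset.card_le_univ (Finset.univ.filter fun j : Fin N => (fun i => x i j) = a)
        rw [Fintype.card_fin] at this
        omega⟩
    rw [Finset.sum_eq_single e₀]
    · have h2 : chi k I N e₀ x = 1 := by
        rw [chi, if_pos]
        intro a; rfl
      rw [h2, mul_one, kpow]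
      rw [← Finset.prod_fiberwise (s := Finset.univ) (g := fun j => (fun i => x i j))]
      refine Finset.prod_congr rfl fun a _ => ?_
      have : ∀ j ∈ Finset.univ.filter (fun j => (fun i => x i j) = a),
          (T fun i => x i j) = T a := by
        intro j hj
        rw [Finset.mem_filter] at hj
        rw [← hj.2]
      rw [Finset.prod_congr rfl this, Finset.prod_const]
    · intro e _ he
      rw [chi, if_neg, mul_zero]
      intro h
      apply he
      funext a
      apply Fin.ext
      rw [← h a]
    · intro hh; exact absurd (Finset.mem_univ _) hh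
  rw [h1]
  exact Submodule.sum_mem _ fun e _ => Submodule.smul_mem _ _ (Submodule.subset_span ⟨e, rfl⟩)

/-- An array in the span of `N`-th powers of arrays of rank `≤ D` has small rank. -/
theorem hasRank_of_mem_span [Nonempty P] [Fintype (∀ i, I i)] {D N : ℕ}
    {S : (∀ i, Fin N → I i) → k} (hS : S ∈ Submodule.span k (kpows k I D N)) :
    HasRank S ((N + 1) ^ (Fintype.card (∀ i, I i)) * D ^ N) := by
  classical
  obtain ⟨b, hb, hspan, hli⟩ := exists_linearIndependent k (kpows k I D N)
  let U : Submodule k ((∀ i, Fin N → I i) → k) :=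
    Submodule.span k (Set.range (chi k I N))
  have hbU : ∀ v : b, (v : (∀ i, Fin N → I i) → k) ∈ U := by
    intro v
    obtain ⟨T, _, hT⟩ := hb v.2
    rw [hT]
    exact kpow_mem_chi N T
  have hli' : LinearIndependent k (fun v : b => (⟨v, hbU v⟩ : U)) := by
    apply LinearIndependent.of_comp U.subtype
    exact hli
  have : Fintype b := @Fintype.ofFinite _ hli'.finite
  have hcard : Fintype.card b ≤ (N + 1) ^ (Fintype.card (∀ i, I i)) := by
    refine hli'.fintype_card_le_finrank.trans ?_
    have h1 := finrank_range_le_card (R := k) (chi k I N)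
    refine h1.trans (le_of_eq ?_)
    rw [Fintype.card_fun, Fintype.card_fin]
  rw [← hspan, ← Set.coe_toFinset b, Submodule.mem_span_finset] at hS
  obtain ⟨f, -, rfl⟩ := hS
  refine (HasRank.sum b.toFinset _ (r := D ^ N) ?_).mono ?_
  · intro v hv
    rw [Set.mem_toFinset] at hv
    obtain ⟨T, hT, hvT⟩ := hb hv
    rw [hvT]
    have h2 := hT.kpow (Fin N)
    rw [Fintype.card_fin] at h2
    exact h2.smul _
  · rw [Set.toFinset_card]
    exact Nat.mul_le_mul_right _ hcard

/-- Specialisation: if an array over `R` has rank `≤ D` over an extension field `Ω` of `R`, then the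
powers of its specialisations to `k` are in the span of the powers of arrays of rank `≤ D`. -/
theorem kpow_mem_span [Infinite k] {R Ω : Type*} [CommRing R] [Field Ω] [Algebra k R] [Algebra k Ω]
    [Algebra R Ω] [IsScalarTower k R Ω] (hinj : Function.Injective (algebraMap R Ω))
    (sp : R →ₐ[k] k) (T : (∀ i, I i) → R) {D : ℕ}
    (hT : HasRank (fun x => algebraMap R Ω (T x)) D) (N : ℕ) :
    kpow (Fin N) (fun x => sp (T x)) ∈ Submodule.span k (kpows k I D N) := by
  classical
  by_contra hnot
  obtain ⟨ℓ, hℓ0, hℓ⟩ := Submodule.exists_le_ker_of_notMem hnot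
  -- coefficients of the functional
  let lc (p : ∀ i, Fin N → I i) : k := ℓ (Pi.single p 1)
  have hℓf : ∀ S, ℓ S = ∑ p, S p * lc p := by
    intro S
    have : S = ∑ p : ∀ i, Fin N → I i, S p • (Pi.single p (1 : k) : (∀ i, Fin N → I i) → k) := by
      funext x
      simp only [Finset.sum_apply, Pi.smul_apply, smul_eq_mul]
      rw [Finset.sum_eq_single x]
      · simp
      · intro y _ h
        rw [Pi.single_eq_of_ne (Ne.symm h), mul_zero]
      · intro hh; exact absurd (Finset.mem_univ _) hh
    conv_lhs => rw [this]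
    rw [map_sum]
    exact Finset.sum_congr rfl fun p _ => by rw [map_smul, smul_eq_mul]
  obtain ⟨ι, _, a, hcard, habc⟩ := hT
  -- the polynomial in the entries of the factors
  let F : MvPolynomial (ι × (Σ i, I i)) k :=
    ∑ p : ∀ i, Fin N → I i, (∏ j, ∑ s : ι, ∏ i,
      MvPolynomial.X (s, (⟨i, p i j⟩ : Σ i, I i))) * MvPolynomial.C (lc p)
  have hF0 : F = 0 := by
    apply MvPolynomial.funext
    intro v
    rw [map_zero]
    let T' : (∀ i, I i) → k := fun x => ∑ s : ι, ∏ i, v (s, ⟨i, x i⟩)
    have hT' : HasRank T' D :=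
      ⟨ι, inferInstance, fun s i x => v (s, ⟨i, x⟩), hcard, fun x => rfl⟩
    have h1 : ℓ (kpow (Fin N) T') = 0 := hℓ (Submodule.subset_span ⟨T', hT', rfl⟩)
    rw [hℓf] at h1
    rw [← h1]
    simp only [F, map_sum, map_mul, map_prod, MvPolynomial.eval_X, MvPolynomial.eval_C, kpow, T']
  -- evaluate over `Ω`
  have h2 : MvPolynomial.aeval (fun q : ι × (Σ i, I i) => a q.1 q.2.1 q.2.2) F = 0 := by
    rw [hF0, map_zero]
  have h3 : algebraMap R Ω (∑ p : ∀ i, Fin N → I i,
      (∏ j, T fun i => p i j) * algebraMap k R (lc p)) = 0 := by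
    rw [← h2]
    simp only [F, map_sum, map_mul, map_prod, MvPolynomial.aeval_X, MvPolynomial.aeval_C,
      ← habc, ← IsScalarTower.algebraMap_apply]
  have h4 : ∑ p : ∀ i, Fin N → I i, (∏ j, T fun i => p i j) * algebraMap k R (lc p) = 0 := by
    apply hinj
    rw [h3, map_zero]
  have h5 := congrArg sp h4
  rw [map_zero] at h5
  apply hℓ0
  rw [hℓf, ← h5]
  simp only [map_sum, map_mul, map_prod, AlgHom.commutes, kpow, Algebra.algebraMap_self,
    RingHom.id_apply]

/-- combination of the previous results -/
theorem hasRank_kpow_specialise [Nonempty P] [Fintype (∀ i, I i)] [Infinite k] {R Ω : Type*}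
    [CommRing R] [Field Ω] [Algebra k R]
    [Algebra k Ω] [Algebra R Ω] [IsScalarTower k R Ω] (hinj : Function.Injective (algebraMap R Ω))
    (sp : R →ₐ[k] k) (T : (∀ i, I i) → R) {D : ℕ}
    (hT : HasRank (fun x => algebraMap R Ω (T x)) D) (N : ℕ) :
    HasRank (kpow (Fin N) (fun x => sp (T x)))
      ((N + 1) ^ (Fintype.card (∀ i, I i)) * D ^ N) :=
  hasRank_of_mem_span (kpow_mem_span hinj sp T hT N)

end Pool.Agent.H2.AR
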